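import Pool.Agent.WAP.StmtsI

/-!
# WAP, row MST: the main step
-/

namespace Pool.Agent.WAP.MST

open Classical

/-- the image of `2` in a local field is not zero. -/
theorem two_ne {F : Type} [NormedField F] [Algebra GaussianInt F] {ϖ : GaussianInt}
    (h : IsLoc F ϖ) : (2 : F) ≠ 0 := by
  have h2 : (2 : GaussianInt) ≠ 0 := by decide
  have hfin : FiniteMultiplicity ϖ (2 : GaussianInt) :=
    FiniteMultiplicity.of_not_isUnit h.prime.not_isUnit h2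
  obtain ⟨c, hc, hn⟩ := hfin.exists_eq_pow_mul_and_not_dvd
  have hc1 : algebraMap GaussianInt F c ≠ 0 := by
    intro h0
    apply hn
    rw [← h.lt_one, h0, norm_zero]
    exact one_pos
  have hp : algebraMap GaussianInt F ϖ ≠ 0 := norm_pos_iff.mp h.uni
  have h3 : (2 : F) = algebraMap GaussianInt F 2 := by rw [map_ofNat]
  rw [h3, hc, map_mul, map_pow]
  exact mul_ne_zero (pow_ne_zero _ hp) hc1

theorem nearE_mono {F : Type} [NormedField F] {m0 m1 : F} {r : ℝ} {z : F × F × F} (hr : 0 < r)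
    (hm : ‖m0 - m1‖ < r / 2) (h : NearE m0 (r / 2) z) : NearE m1 r z := by
  obtain ⟨h1, h2, h3, h4⟩ := h
  have h5 : 1 / r ≤ 1 / (r / 2) := one_div_le_one_div_of_le (by positivity) (by linarith)
  refine ⟨h1, lt_of_le_of_lt h5 h2, lt_of_le_of_lt h5 h3, ?_⟩
  have h6 : mz z - m1 = (mz z - m0) + (m0 - m1) := by ring
  calc ‖mz z - m1‖ = ‖(mz z - m0) + (m0 - m1)‖ := by rw [h6]
    _ ≤ ‖mz z - m0‖ + ‖m0 - m1‖ := norm_add_le _ _
    _ < r / 2 + r / 2 := add_lt_add h4 hm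
    _ = r := by ring

theorem mst (hMEI : MeiStmt) (hMEE : MeeStmt) (hJCO : JcoStmt) (hJNE : JneStmt) (hRCG : RcgStmt)
    (hSAP : SapStmt) (hAPX : ApxStmt) (hRUC : RucStmt) (hRUD : RudStmt) (hRUI : RuiStmt)
    (_hINV : InvStmt) (hCMP : CmpStmt) : MstStmt := by
  intro ι F _ _ ϖ S q hfam hqS hq2 hnorm u O hO Vq hVq hVqne
  have hq : IsLoc (F q) (ϖ q) := hfam.1 q
  -- step 1
  obtain ⟨a, b, c, e, x1, r1, hdet, hr1, hx0, hx1, hxm, hx2, hg⟩ := hRCG (F q) (ϖ q) hq hq2 Vq hVq hVqne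
  obtain ⟨r2, hr2, hjne⟩ := hJNE (F q) (ϖ q) hq hq2 x1 r1 hr1 hx0 hx1 hxm hx2
  have h2q : (2 : F q) ≠ 0 := two_ne hq
  have hm1 : (-1 / (2 * x1) : F q) ≠ 0 :=
    div_ne_zero (neg_ne_zero.mpr one_ne_zero) (mul_ne_zero h2q hx0)
  obtain ⟨ha, hb, hc, he, hhdet, ha0, hc0, happ⟩ :=
    hAPX (F q) (ϖ q) hq (-1 / (2 * x1)) (r2 / 2) hm1 (by positivity)
  obtain ⟨r3, N3, hr3, hmee⟩ := hMEE (F q) (ϖ q) hq hq2 ha hb hc he (r2 / 2) hhdet ha0 hc0
    (by positivity)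
  obtain ⟨r4, hr4, hjco⟩ := hJCO (F q) (ϖ q) hq hq2 r3 hr3
  obtain ⟨N4, hmei⟩ := hMEI (F q) (ϖ q) hq hq2 r4 hr4
  -- step 2
  have hok : ∀ l ∈ [Letter.act e (-b) (-c) a, Letter.jj], l.ok := by
    intro l hl
    simp only [List.mem_cons, List.not_mem_nil, or_false] at hl
    rcases hl with rfl | rfl
    · show e * a - -b * -c = 1
      linear_combination hdet
    · exact trivial
  have hinvW : invW [Letter.act e (-b) (-c) a, Letter.jj] =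
      [Letter.jj, Letter.act a b c e] := by
    simp [invW, Letter.inv]
  have step2 : ∀ v : ι, ∃ (u1 : F v × F v × F v) (Q P : Set (F v × F v × F v)), v ∈ S →
      OnU u1 ∧ u1 ∈ O v ∧ IsOpen Q ∧ IsOpen P ∧ u1 ∈ P ∧
      (∀ z1 ∈ P, OnU z1 → ∃ z2 ∈ Q, Run [Letter.act e (-b) (-c) a, Letter.jj] z1 z2) ∧
      (∀ z1 ∈ Q, OnU z1 → ∃ z2 ∈ O v, Run [Letter.jj, Letter.act a b c e] z1 z2) := by
    intro v
    by_cases hv : v ∈ S
    · have hL : IsLoc (F v) (ϖ v) := hfam.1 v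
      have hLC : IsLC (F v) := Or.inl ⟨ϖ v, hL⟩
      obtain ⟨hOnU, hOo, huO⟩ := hO v hv
      obtain ⟨u1, hu1, q1, hrun⟩ := (hRUD (F v) hLC _ hok (O v) hOo ⟨u v, huO, hOnU⟩).1
      have hrun' := hRUI (F v) (two_ne hL) _ u1 q1 hrun
      rw [hinvW] at hrun'
      obtain ⟨Q, hQo, hqQ, hQ⟩ := hRUC (F v) hLC _ q1 u1 hrun' (O v) hOo hu1
      obtain ⟨P, hPo, huP, hP⟩ := hRUC (F v) hLC _ u1 q1 hrun Q hQo hqQ
      have hU1 : OnU u1 := by
        obtain ⟨y, hy, _⟩ := hrun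
        exact hy.1
      exact ⟨u1, Q, P, fun _ => ⟨hU1, hu1, hQo, hPo, huP, hP, hQ⟩⟩
    · exact ⟨u v, Set.univ, Set.univ, fun h => absurd h hv⟩
  choose u1 Q P h2 using step2
  have hassoc : ∀ v ∈ S, ¬ Associated (ϖ v) (ϖ q) := by
    intro v hv
    apply hfam.2
    rintro rfl
    exact hqS hv
  -- step 3
  obtain ⟨a1, b1, c1, e1, hdet1, hda, hdb, hdc, hde, hstep1⟩ :=
    hSAP ι F ϖ S (ϖ q) (fun v _ => hfam.1 v) hq.prime hq2 hassoc hnorm u1 P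
      (fun v hv => ⟨(h2 v hv).1, (h2 v hv).2.2.2.1, (h2 v hv).2.2.2.2.1⟩) a b c e hdet N4
  -- the product matrix
  have hkdet : (e * a1 + -b * c1) * (-c * b1 + a * e1) - (e * b1 + -b * e1) * (-c * a1 + a * c1)
      = 1 := by
    linear_combination (a1 * e1 - b1 * c1) * hdet + hdet1
  have step3 : ∀ v : ι, ∃ y q2 : F v × F v × F v, v ∈ S →
      Step (Letter.act (e * a1 + -b * c1) (e * b1 + -b * e1) (-c * a1 + a * c1)
        (-c * b1 + a * e1)) (u1 v) y ∧ Step Letter.jj y q2 ∧ q2 ∈ Q v := by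
    intro v
    by_cases hv : v ∈ S
    · obtain ⟨w, hw, hst⟩ := hstep1 v hv
      obtain ⟨q2, hq2Q, y, hy, y2, hy2, hyU, rfl⟩ := (h2 v hv).2.2.2.2.2.1 w hw hst.2.1
      refine ⟨y, _, fun _ => ⟨?_, hy2, hq2Q⟩⟩
      exact hCMP (F v) (two_ne (hfam.1 v)) a1 b1 c1 e1 e (-b) (-c) a (u1 v) w y hst hy
    · exact ⟨u v, u v, fun h => absurd h hv⟩
  choose y q2 h3 using step3
  obtain ⟨a2, b2, c2, e2, hdet2, hda2, hdb2, hdc2, hde2, hstep2⟩ :=
    hSAP ι F ϖ S (ϖ q) (fun v _ => hfam.1 v) hq.prime hq2 hassoc hnorm q2 Q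
      (fun v hv => ⟨(h3 v hv).2.1.2.1, (h2 v hv).2.2.1, (h3 v hv).2.2⟩) ha hb hc he hhdet N3
  refine ⟨[Letter.act (e * a1 + -b * c1) (e * b1 + -b * e1) (-c * a1 + a * c1)
        (-c * b1 + a * e1), Letter.jj, Letter.act a2 b2 c2 e2, Letter.jj,
        Letter.act a b c e], ?_, ?_, ?_⟩
  · intro l hl
    simp only [List.mem_cons, List.not_mem_nil, or_false] at hl
    rcases hl with rfl | rfl | rfl | rfl | rfl
    · exact hkdet
    · exact trivial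
    · exact hdet2
    · exact trivial
    · exact hdet
  · intro v hv
    obtain ⟨q3, hq3, hst⟩ := hstep2 v hv
    obtain ⟨w, hw, s, hs, s2, hs2, hsU, rfl⟩ := (h2 v hv).2.2.2.2.2.2 q3 hq3 hst.2.1
    exact ⟨u1 v, (h2 v hv).2.1, _, hw, y v, (h3 v hv).1, q2 v, (h3 v hv).2.1, q3, hst, s, hs,
      _, hs2, hsU, rfl⟩
  · have k1 : ϖ q ^ N4 ∣ (e * a1 + -b * c1) - 1 := by
      have h : (e * a1 + -b * c1) - 1 = e * (a1 - a) - b * (c1 - c) := by
        linear_combination hdet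
      rw [h]
      exact dvd_sub (dvd_mul_of_dvd_right hda _) (dvd_mul_of_dvd_right hdc _)
    have k2 : ϖ q ^ N4 ∣ (e * b1 + -b * e1) := by
      have h : (e * b1 + -b * e1) = e * (b1 - b) - b * (e1 - e) := by ring
      rw [h]
      exact dvd_sub (dvd_mul_of_dvd_right hdb _) (dvd_mul_of_dvd_right hde _)
    have k3 : ϖ q ^ N4 ∣ (-c * a1 + a * c1) := by
      have h : (-c * a1 + a * c1) = a * (c1 - c) - c * (a1 - a) := by ring
      rw [h]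
      exact dvd_sub (dvd_mul_of_dvd_right hdc _) (dvd_mul_of_dvd_right hda _)
    have k4 : ϖ q ^ N4 ∣ (-c * b1 + a * e1) - 1 := by
      have h : (-c * b1 + a * e1) - 1 = a * (e1 - e) - c * (b1 - b) := by
        linear_combination hdet
      rw [h]
      exact dvd_sub (dvd_mul_of_dvd_right hde _) (dvd_mul_of_dvd_right hdb _)
    obtain ⟨z, z1, hz, hz1, hz1E⟩ := hmei _ _ _ _ hkdet k1 k2 k3 k4
    obtain ⟨z2, hz2, hz2E⟩ := hjco z1 hz1E
    obtain ⟨z3, hz3, hz3E⟩ := hmee a2 b2 c2 e2 hdet2 hda2 hdb2 hdc2 hde2 z2 hz2E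
    obtain ⟨z4, hz4, hz4G⟩ := hjne z3 (nearE_mono hr2 happ hz3E)
    obtain ⟨w, hw, hwst⟩ := hg z4 hz4G
    exact ⟨z, hz, w, hw, z1, hz1, z2, hz2, z3, hz3, z4, hz4, w, hwst, hwst.2.1, rfl⟩

end Pool.Agent.WAP.MST
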